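import Pool.Agent.helper46.TD.AllU
import Pool.Agent.helper46.TE.Bridge

/-!
# The Tate conjecture with coefficients `ℚ_q`, `q` any prime number, for families of superelliptic curves and Fermat curves

`l` is an odd prime number, `t` a type of `k` curves: numbers `n_i ≥ 1` and weights `0 < μ_ij < l`, `i < k`, `j ≤ n_i`, `l` not dividing `∑_j μ_ij`. For `a = (a_ij)`, `a_ij ≠ a_ij'`, let `C_i(a) : y^l = ∏_j (x - a_ij)^(μ_ij)`
(every cyclic cover of the line of degree `l` is of this form after moving a branch point to infinity; `l` and different curves of the type may have the same `n_i`, `μ_ij`). The exponents `e_i ≥ 0` are arbitrary.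

`E` is any finite set of Fermat curves `x^m + y^m = 1`, `J_F` the product of their Jacobians. `TateAll (C, e) E q`, the Tate conjecture with coefficients `ℚ_q` in all degrees for all complex tori `A` isogenous to `∏ Jac(C_i)^(e_i) × J_F` (for all embeddings `ℚbar → ℂ`): the Jacobians `ℂ^Idx ⧸ L_i` and the Abel-Jacobi maps exist; there is exactly one family `e` of isomorphisms
`ℚ_q ⊗ H_1(C_i(ℂ), ℤ) ≅ V_q(Jac C_i)` given by the Abel-Jacobi maps on torsion points (the comparison isomorphisms); every class `X ∈ H_(2b)(A, ℚ_q)` with `σ X = χ_q(σ)^b X` for all `σ` in the Galois group of some number field is a `ℚ_q`-linear combination of integral classes of algebraic cycles.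

THEOREM. Let `q` be a prime number (`q = l` and `q = 2` are allowed) and `F ⊂ ℚbar` a field. There are `P ∈ F[x_ij][Y]`, monic and irreducible, and `Δ ∈ F[x_ij]`, `Δ ≠ 0`, such that `TateAll (C(a), e) E q` is true for all `e`, all `E` and all `a ∈ F^I` with `Δ(a) ≠ 0` for which `P(a; Y)` is irreducible over `F` (`Hilb`).
So, if `F` is a number field, for all `a ∈ F^I` outside of a thin set, by the irreducibility theorem of Hilbert. For `F = ℚ` this theorem is proved in Lean too (`Pool/Agent/helper47/HIT/All.lean`), and the consequence (`Pool/Agent/helper47/TNQ/Points.lean`, `rational_points`):
for every finite set of prime numbers `q` and every polynomial `D ≠ 0` there are rational branch points `a` with `D(a) ≠ 0` such that `Tate (C(a), e) q` (the case without Fermat curves) is true for all these `q` and all `e`.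

There are no hypotheses on the action of the Galois group or on the comparison isomorphism: the group acts on the class groups `Cl_i` of the rings of functions on the curves minus
the points over the `a_ij` and infinity; `Cl_i` is `Jac(C_i)(ℚbar)` modulo the subgroup generated by the differences of these points, which is killed by `l`; `V_q = Hom(ℚ_q, Cl_i)`
(homomorphisms vanishing on an open subgroup, `IsTateMod`). An element of `V_q`, the homomorphism `x ↦ e_i(1 ⊗ u)(x)`, corresponds to `u ∈ L_i = H_1(C_i(ℂ), ℤ)` if its values at `q^(-k)` are the classes of divisors of degree zero whose
images under the Abel-Jacobi map `F_i : C_i → ℂ^Idx ⧸ L_i` are `q^(-k) u`, up to a divisor class killed by `l` (`Nat`). These abelian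
varieties have no complex multiplication (if `n_i ≥ 2`), and their Tate classes are not generated by divisors.

The hand-in TateCyclic is the case `q = l` for explicit branch points (which must be different for the different curves); here `q` is any prime number, and curves of the same kind are allowed.

## The proof

(0) The comparison isomorphism with coefficients `ℚ_q` (`Pool/Agent/helper47/TQ/SpecJ.lean`, `SpecG.lean`: TOR, KER, CQ, `SpecC.lean`). Every point of order `N` of the torus `ℂ^Idx ⧸ L_i` is the value of the Abel-Jacobi map at a divisor `S` over `ℚbar` (even over every algebraically closed field containing the branch points) for which `N S`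
is principal: inversion of Jacobi by the degree of the Abel-Jacobi map on divisors and the theorem of Abel by differentials of the third kind, descent from `ℂ` to subfields.

(1) Topology (`SpecP.lean`). The periods of `C_i(a)` in the slit plane depend analytically on `a`; crossing a slit, two branch points exchange their order, and the periods change by `ζ^(μ)`. Transport along a path defines `IsTr`; the loops which move the branch point `j + 1` around the branch point `j` act on the frame `δ_j` of `H_1` over `ℤ[ζ]`
by the complex reflections `tw_j` (P17, P18).

(2) Algebra (`SpecZ.lean`). For a suitable order of the branch points (the permutation `π`, PI) the group `Gam` generated by the `tw_j` is, modulo `q^K` for every `K`, large: for `ζ`-hermitian lattices with the form of the `δ_j` the commutators of the elements of `∏ Gam_i` (one factor for every curve) give, `q`-adically, the Lie algebra `su` of the unitary group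
and a cyclic element (ZK, ZC, ZD).

(3) Specialisation (`SpecG.lean`). At a generic complex point `z` the torsion divisors of order `N = q^(K + 4)` are defined over a ring `R = F[x_ij, α, 1 / Δ]`, `P(x; α) = 0`. For a loop in `∏ Gam_i` and `a ∈ F^I` with `Δ(a) ≠ 0`: lift a path from `z` to `a`, then the loop, to the roots of `P`; the torsion divisors are transported to torsion divisors (G10). If `P(a; Y)` is
irreducible then the new point of `R` over `a` is a conjugate of the old one: a Galois element `σ` acts on the points of order `N` as the loop (MON, GR).

(4) Lie theory (`SpecS.lean`, `DefsR.lean`). So the image of the Galois group in `∏ GL(V_q(J_i))` is large modulo `q^K`, and it is a closed subgroup; with logarithms the Lie algebra of the group contains `∏ su(V_q(J_i))`: Tate classes are killed by it (`Sup`); and it contains a cyclic element (`CycG`).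

(5) Frobenius elements and Hodge classes, as in the hand-in TateCyclic: by a weak form of the theorem of Chebotarev there is a Frobenius element at a place of degree one which is close to the cyclic element; its determinant over `ℚ_q(ζ)` is a Jacobi sum
(relation of Coleman type on the curve over the finite field); so `X` is a combination of Hodge classes, by the theorem of Stickelberger; the Hodge conjecture for them is the theorem `Pool.Agent.SJ.T_SU2` (hand-in UnitaryCyclic: new algebraic cycles on products of the Jacobians and the Hodge conjecture for tori with complex multiplication).
The part of the proof after (4) is `Pool.Agent.TD.TDF_stmt` (`Pool/Agent/helper46/TD/SpecN.lean`, `Pool/Agent/helper76/TD/CBF.lean`): it is true for classes killed by `∏ su(V_q(J_i))` for all branch points, see the hand-in TateUnitary, and includes the Fermat curves: a Frobenius element acts on `V_q(J_F)` as a sum of roots of unity (relation of Coleman).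

(6) The Fermat curves in (4) (`Pool/Agent/helper46/TD/SpecU.lean`). The operators on `V_q(J_F)` which commute with the roots of unity commute with each other (COM), because the characters of the group of roots of unity on `H_1(J_F, ℂ)` are different. So the bracket of the logarithms of two Galois elements is `0` on `V_q(J_F)` (LGF, BRF): the Lie algebra of the group
on `∏ V_q(J_i) × V_q(J_F)` contains `∏ su(V_q(J_i)) × 0` (SPX, KLF).

The paper proof of (0) - (5): `Pool/Agent/helper47/TQ/paper.md`. The definitions of the statement are in `Pool/Agent/helper46/TE/DefA.lean`, `Fer.lean`, `Alg.lean`, `Pool/Agent/helper47/TNQ/Def.lean`, `Pool/Agent/helper88/TN/Def.lean`, `TC/Gen.lean`, `Pool/Agent/helper34/SJ/Defs.lean`, `Pool/Agent/helper76/SJ/ZDefs.lean`, `Pool/Agent/helper88/SJ/VDefs.lean`.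
The proof uses equivalent definitions (`Pool/Agent/helper46/TD/DefU.lean`, `Def.lean`, ..); `Pool/Agent/helper46/TE/Bridge.lean` compares them.
-/

namespace Pool.Agent.Results.MP_3703a7_ag.TateAllPrimes

open Pool.Agent.TC Pool.Agent.TNQ Pool.Agent.TE

/-- For every odd prime number `l`, every type `t`, every prime number `q` and every field `F ⊂ ℚbar` the Tate conjecture with coefficients `ℚ_q`, in all degrees, is true for all complex tori isogenous to products of powers of the Jacobians of the curves
`C_i : y^l = ∏_j (x - a_ij)^(μ_ij)` of the type `t` and of the Jacobians of any Fermat curves, for all `a ∈ F^I` in a Hilbert set over `F`, which does not depend on the exponents and on the Fermat curves. -/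
theorem result (l : ℕ) [Fact l.Prime] (hl : l ≠ 2) (t : Typ l) (q : ℕ) [Fact q.Prime] (F : IntermediateField ℚ Qb) :
    Hilb (F := F) t.I fun a => ∃ h, ∀ (e : Fin t.k → ℕ) (E : Fer), TateAll (t.cvs (algebraMap F Qb) a h e) E q := by
  obtain ⟨P, Δ, h1, h2, h3, H⟩ := Pool.Agent.TDAll.t_FNU l hl t q F
  refine ⟨P, Δ, h1, h2, h3, fun a ha hb => ?_⟩
  obtain ⟨h, hh⟩ := H a ha hb
  exact ⟨h, fun e E => brA _ E q (hh e (old E))⟩

end Pool.Agent.Results.MP_3703a7_ag.TateAllPrimes
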