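import Pool.Agent.helper56.TGB.AllPZ

/-!
# MP_3703a7_ag: the Tate conjecture for abelian varieties of CM type over number fields, for all primes `p`, with the action of the Galois group on the torsion points

`F ⊂ ℂ` is a number field and `A` an abelian variety over `F`: `A(ℂ) = W ⧸ Lam` is embedded in the projective space by theta functions `θ_1, .., θ_n` (structure `AV` in `Pool/Agent/helper56/TGA/Defs.lean`), the image is a smooth projective variety defined by equations over `F`, and the addition theorem
`θ_i(z + w) θ_j(z - w) = P_ij(θ(z), θ(w))` has coefficients in `F`. (Every abelian variety over `F` is of this form: take a basis over `F` of the sections of a power `L = M^k`, `k ≥ 3`, of a symmetric ample line bundle `M`, trivialised by the canonical factors of automorphy of Appell and Humbert. This remark is not in Lean.)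

The automorphisms `σ` of `ℂ` over `F` act on the points of `A` by their action on the coordinates (`Act`), in particular on the torsion points `u / p^k`, `u ∈ Lam`, and so on `V_p(A) = ℚ_p ⊗ Lam` (`IsGal`). `Cyc p σ c` says that `c ∈ ℤ_p` is the value of the cyclotomic character at `σ`. A Tate class is an element `X` of
`H_(2a)(A, ℚ_p) = Λ^(2a) V_p(A)` with `σ X = χ(σ)^a X` for all `σ` which fix a finite extension `E` of `F` (`IsTate`). We need this only for small open subgroups of the decomposition groups over `p` (`IsTateP` in `Pool/Agent/helper56/TGA/DefsP.lean`): for every isomorphism `ι` of `ℂ` with the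
algebraic closure of `ℚ_p` there is a finite extension `K` of `ℚ_p` such that `σ X = χ(σ)^a X` for all `σ = ι⁻¹ g ι` over `F`, `g ∈ Gal(ℚ_p^alg / K)`. `A` is of CM type if `W = ∏ ℂ^Φ_j`, `ℚ Lam = ∏ K_j` with CM fields `K_j` and CM types `Φ_j` (`CMData`). This is a condition on the complex torus only: that the elements of `∏ K_j` which respect `Lam` are
endomorphisms of the abelian variety, defined over an algebraic closure of `F` (`AV.IsEndo`), is proved (theorem of Chow for endomorphisms, see below). The Galois group may permute the endomorphisms, and `A` may be of any dimension, with any reduction at `p`.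

## Theorem

(1) For every `σ` fixing `F` there are exactly one `c ∈ ℤ_p` with `Cyc p σ c` and exactly one `G` with `IsGal σ G`: the Galois group acts on `V_p(A)`.

(2) Every Tate class (`IsTate`) is a Tate class for the decomposition groups over `p` (`IsTateP`).

(3) If `A` is of CM type, then for every prime number `p` (also `p = 2`, also if `A` has bad reduction at `p`) and every `a` every class in `H_(2a)(A, ℚ_p)` which is a Tate class for the decomposition groups over `p` (`IsTateP`), in particular every Tate class, is a `ℚ_p`-linear combination of integral classes `f_*[Γ \ B^a]` of holomorphic maps `f : Γ \ B^a → A` of compact ball quotients (`BallL`), which are classes of algebraic cycles by the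
theorems of Kodaira and Chow.

Nothing is assumed about the Galois representation or the endomorphisms: neither the theorem of Shimura and Taniyama nor the Weil pairing nor the Hodge-Tate decomposition nor the theorem of Chow. For the conjecture over `F` itself: if `X` is a Tate class with `E = F`, average the algebraic cycle over the Galois group of a field of definition.

## The proof

(0) Endomorphisms (`Pool/Agent/helper42/TGA/SpecZ.lean`, theorem `Z_ZHE`). Let `r` be a complex linear map of `W` with `r Lam ⊂ Lam`. The pairs `(z, w)` such that `(θ(z), θ(w))` is in the algebraic closure of the graph of `r` are those with `w - r z ∈ Z`, `Z` a closed subgroup of `W` containing `Lam` (addition theorem). `Z` contains no line (Siegel's method: auxiliary functions and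
the lemma of Schwarz), so `Z / Lam` is finite. Automorphisms of `ℂ` over the algebraic numbers fix the torsion points, so they commute with `r`; it follows that the coordinates of `r z` are rational functions of those of `z` with algebraic coefficients, and by translations by torsion points they are regular.

(A) The Galois action (`SpecR.lean`, rows ACX, ACY, REP, PSI). By the addition theorem `σ` respects the group law of `A`, so it maps `u / p^k` to a point `u' / p^k`, `u'` is determined modulo `p^k Lam`, and this gives `G` on `V_p(A)`. An open subgroup commutes with the elements of `∏ K_j`. Fix an isomorphism `ι` of `ℂ` with the algebraic closure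
`L` of `ℚ_p`. For an embedding `s` of some `K_j` let `e_s : V_p(A) → ℂ_p` be the coordinate `u ↦ ι(s(u_j))`; then `e_s(G v) = ψ_s e_s(v)`.

(B) Hodge-Tate weights (blocks O, E, N, R; the idea of Fontaine: differential forms and Tate modules). There is a map `δ : L → L` which satisfies the rules of a derivation up to bounded errors, is not bounded on the integral elements, and `δ(g x) = χ(g) g(δ x)` up to bounded errors (project CPT, `Pool/Agent/helper42/CPT`: it comes from the differentials of the rings of integers of the
cyclotomic `p`-extension and `ℂ_p^(G_K) = K`, `ℂ_p(χ^m)^(G_K) = 0` for `m ≠ 0`, which are also proved there). An invariant differential form `ω` on `A` has values `e(P)` at the points `P ∈ A(L)`: polynomials in primitive coordinates of `P` and their `δ`; up to bounded errors `e` does not depend on the choices, is additive (addition theorem), linear for endomorphisms, and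
`e(g P) = χ(g) g(e(P))` (`SpecE.lean`, `SpecR.lean`). It is not bounded if `ω ≠ 0` (`SpecN.lean`). The Tate module has the period map `(P_n) ↦ lim p^n e(P_n) ∈ ℂ_p`. If `ω` is the coordinate of `W` at an embedding `s ∈ Φ_j`, the period map is a nonzero multiple `c_s e_s`, so `ψ_s c_s = χ(g) g(c_s)` for `g` in an open subgroup.

(C) Polarisation (`Pool/Agent/helper61/POL`, `Pool/Agent/helper61/TGA`). Let `θ(z + l) = exp(a_l(z) + b_l) θ(z)` and `2 π i E(l, l') = a_(l')(l) - a_l(l')`. For points `x, y` of order `N` the number `exp(a_(N y)(x) - a_(N x)(y))` is a root of unity which can be computed with the addition theorem, so `E(G v, G w) = c E(v, w)`. The form `E` is not degenerate, and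
`E(i z, i w) = E(z, w)`; it follows that `ψ_s ψ_(s') = χ`, `s'` the complex conjugate of `s`.

(D) Weights (`Loc.lean`, row WBLP). If the weight `s_1, .., s_(2a)` occurs in the Tate class `X`, then `∏ ψ_(s_i) = χ^a` on an open subgroup, and by (B), (C) and `ℂ_p(χ^m)^(G_K) = 0` for `m ≠ 0` exactly `a` of the `s_i` are in the CM types `Φ_j`. This is so for every isomorphism `ι`, that is for all conjugates of the weight. So `X` is a `ℚ_p`-linear combination of rational
classes which are Hodge classes (`SpecW.lean`), and Hodge classes on tori of CM type are combinations of classes of holomorphic maps of compact ball quotients (`Pool.Agent.helper28.HCAll.T_HodgeCM`; with integral classes: row F3, `Pool/Agent/helper47/FJ/F3.lean`).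
-/

set_option autoImplicit false

namespace Pool.Agent.Results.MP_3703a7_ag.TateCMGalois

open Pool.Agent.TC Pool.Agent.TF Pool.Agent.TGA Pool.Agent.HC

/-- Let `A` be a complex torus, `F ⊂ ℂ` a number field, `V` the structure of an abelian variety over `F` on `A`, and `p` a prime number. Then every `σ ∈ Aut(ℂ/F)` has exactly one action `G` on `V_p(A)` and one cyclotomic character `c ∈ ℤ_p`, Tate classes are Tate classes for the decomposition groups over `p`, and if the torus `A` is of CM type, then the latter are
`ℚ_p`-linear combinations of classes of holomorphic maps of compact ball quotients of dimension `a` to `A`. -/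
theorem result (A : CT) [FiniteDimensional ℂ A.W] (hL : IsLattice A.Lam) (F : Subfield ℂ) (hF : FiniteDimensional ℚ F) (V : AV A F)
    (p : ℕ) [Fact p.Prime] :
    (∀ σ : Aut ℂ, Fix F σ → (∃! c : ℤ_[p], Cyc p σ c) ∧ ∃! G : VM A A p, V.IsGal σ G) ∧
    (∀ (a : ℕ) (X : HL A p), V.IsTate a X → V.IsTateP a X) ∧
    ∀ _ : CMData A.W A.Lam, ∀ (a : ℕ) (X : HL A p), V.IsTateP a X → BallL A p a X :=
  Z_FINZ A hL F hF V p

end Pool.Agent.Results.MP_3703a7_ag.TateCMGalois
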