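import Pool.Agent.helper56.TGT.AllG

/-!
# MP_3703a7_ag: the Tate conjecture for products of powers of Jacobians of cyclic covers of the line, ball type tori and tori of CM type, with the action of the Galois group on the torsion points

`F ⊂ ℂ` is a number field and `A` an abelian variety over `F`: `A(ℂ) = W ⧸ Lam` is embedded in the projective space by theta functions `θ_1, .., θ_n` (structure `AV` in `Pool/Agent/helper56/TGA/Defs.lean`), the image is a smooth projective variety defined by equations over `F`, and the addition theorem `θ_i(z + w) θ_j(z - w) = P_ij(θ(z), θ(w))` has coefficients in `F`.
The automorphisms `σ` of `ℂ` over `F` act on the points of `A` by their action on the coordinates (`Act`), in particular on the torsion points `u / p^k`, `u ∈ Lam`, and so on `V_p(A) = ℚ_p ⊗ Lam` (`IsGal`; existence and uniqueness: hand-in TateCMGalois, (1)). `Cyc p σ c`: `c ∈ ℤ_p` is the value of the cyclotomic character at `σ`. A Tate class is an element `X` of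
`H_(2b)(A, ℚ_p) = Λ^(2b) V_p(A)` with `σ X = χ(σ)^b X` for all `σ` which fix some finite extension `E` of `F` (`IsTate`). For the first part of the theorem we need this only for small open subgroups of the decomposition groups over `p` (`IsTateP` in `Pool/Agent/helper56/TGA/DefsP.lean`; `IsTate` implies `IsTateP`).

The complex torus `A` is isogenous to `∏ J_i^(e_i) × B` (`Iso` in `Pool/Agent/helper56/TGC/Def.lean`), `e_i > 0`, `B` any torus of CM type, and the factors `J_i` with their endomorphisms `z_i` and classes `x_i ∈ H_2(J_i, ℝ)` are (`Fac`)

* `Jac`: the new part of the Jacobian of ANY cyclic cover `y^d = ∏ (x - a_j)^(μ_j)` of the line, `d ≥ 3`, `0 < μ_j < d`, `d ∤ ∑ μ_j`, the `a_j` any different complex numbers; `z` is the action of `ζ_d`, `x` the class of the curve;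
* `Ball`: any torus polarised by `x` with an endomorphism `z` which preserves `x`, `Φ_d(z) = 0`, `d = 3, 6` and dimension at most `9`, or `d = 4` and dimension at most `5`, such that some primitive `d`-th root of unity is an eigenvalue of multiplicity one of `z` (abelian varieties parametrised by complex balls).

## Theorem

Let `p` be any prime number and `X ∈ H_(2b)(A, ℚ_p)` a Tate class for the decomposition groups over `p`. Assume

(a) `X` is killed by the Lie algebras `su(V_p(J_i))` (`Killed`; the maps which commute with `z_i`, kill the class `x_i` and have trace zero over `ℚ_p[z_i]`), or

(b) (`Big` in `Pool/Agent/helper56/TGT/DefG.lean`) `X` is a Tate class, every `z_i` has an eigenvalue on the tangent space of `J_i` (a primitive `d_i`-th root of unity) whose multiplicity is PRIME TO THE DIMENSION `2 dim J_i / φ(d_i)` of the eigenspaces of `z_i` on `H_1(J_i)` (for example, multiplicity one: every ball type torus), or `J_i` is the new part of the Jacobian of a curve `y^(d_i) = f_i(x)`, `f_i` with different roots, `deg f_i - 1` prime to `d_i` (then there is such an eigenvalue);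
the eigenspaces of `z_i` in the `ℂ_p`-space of functionals on `V_p(J_i)` have no subspaces which are invariant under the Galois group of a finite extension of `F` (`Irr`), and different eigenspaces (`(i, τ)`, `(j, τ')` with `τ' ≠ τ, τ⁻¹` if `i = j`) of dimension at least two for which the
reduced multiplicities agree for all conjugates are not linked by a linear map which intertwines the Galois actions up to scalars (`Unl`); the last condition is not needed if all `J_i` are new parts of Jacobians of curves `y^(d_i) = f_i(x)` with different pairs `(d_i, deg f_i)`, and all `d_i` are prime powers and all `deg f_i ≥ 5`, or all `d_i` are prime numbers and all `deg f_i < 2 d_i` (`Prp`).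

Then `X` is a `ℚ_p`-linear combination of integral classes which are algebraic (`AlgQ`, `AlgT` in `Pool/Agent/helper46/TE/Alg.lean`: generated by the classes of holomorphic maps of compact ball quotients, of the curves in the new parts of their Jacobians and of explicit algebraic varieties in products of two or three of these, under images of products and intersections with fibres).

In (a) nothing is assumed about the Galois representation or the endomorphisms. The condition `Irr` in (b) is satisfied if `J_i` has no endomorphisms except those in `ℚ(z_i)` (theorem of Faltings; not in Lean, `Irr` is a hypothesis here); for `y^(q^k) = f(x)`, `q` prime, `q^k ∤ deg f`, this is so if the Galois group of `f` contains the alternating group, `deg f ≥ 5` (Zarhin, Xue), and if `q` does not divide `deg f - 1` then (b) applies, at ALL primes `p`, to the powers of such new parts and to their products with different pairs `(q^k, deg f)`.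
The condition on the multiplicity is satisfied for `y^l = f(x)`, `l > 2` prime, `l ∤ m = deg f`, if `m` is not `1` modulo `l` or `m < 2 l`.

## The proof

(0) Endomorphisms of the complex torus are endomorphisms of the abelian variety over an algebraic closure of `F` (`Z_ZHE`, theorem of Chow; `Pool/Agent/helper42/TGA/SpecZ.lean`).

(A) Sen theory (`SpecE.lean`, `SpecR.lean`, `SpecN.lean`, `SpecL.lean`, `SpecU.lean`). For every isomorphism `ι` of `ℂ` with the algebraic closure of `ℚ_p` the invariant differential forms have `p`-adic periods, and there is an operator `S` on the functionals `V_p(A) → ℂ_p` (the Sen element: the projector onto the periods) which has the class `X` as an eigenvector, commutes with the endomorphisms and kills the classes of divisors up to the weight.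

(a) (`INVP`, `GUIP`, `GFI`.) If `X` is killed by the `su(V_p(J_i))` then it is killed by the special Lefschetz Lie algebra, and by (A) it has the Hodge types `(b, b)` for every `ι`, so it is a combination of rational Hodge classes killed by the real Lie algebras `su(J_i)`. These are algebraic (`Pool/Agent/helper79/HEC`, `Pool/Agent/helper47/SJ`).

(b) (`SpecC`, `SpecD` in `Pool/Agent/helper42/TGA`.) Let `E` be a finite extension of `F` over which the endomorphisms are defined (`ENE`). The operators which have ALL Tate classes of degree `b` as eigenvectors form a Lie algebra `Q` which is stable under the Galois group of `E` and contains the Sen elements, which are projectors of rank `r_i(τ)` (the multiplicity of `τ` on the cotangent space of `J_i`) on the eigenspaces. The eigenspaces are primitive representations of the Galois group (`PIR`: a member of a finite family of independent subspaces which is permuted is invariant under an open subgroup),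
so the restriction of `Q` to an eigenspace is irreducible (`CPK`), and an irreducible Lie algebra which contains the identity and a projector whose rank is prime to the dimension is everything (`CPM`; elementary, without the classification of minuscule weights).
Two eigenspaces can be linked (lemma of Goursat) only by a linear map which intertwines the Galois actions and the projectors up to scalars, so the multiplicities agree for all conjugates (for prime powers this is impossible: `NQV`, `NUY`, `FMD`, `FME`). So every Tate class is killed by all `su(V_p(J_i))` (`MKU`, `MKV`), and (a) applies.

The proof uses other forms of the definitions (`GPow` in `Pool/Agent/helper77/TGA/SpecB.lean`, `TFac`, `KillP`, `IrrG`, `Unl4`, `BigA`, `Alg`); `Pool/Agent/helper56/TGC/Br.lean`, `BrF.lean`, `Pool/Agent/helper56/TGT/BrG.lean` compare them with those of this file.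
-/

set_option autoImplicit false

namespace Pool.Agent.Results.MP_3703a7_ag.TateFull

open Pool.Agent.TC Pool.Agent.TGA Pool.Agent.HC
open Pool.Agent.TGC (Iso Fac)
open Pool.Agent.TGV (Big C_FULG)

/-- Let `A` be an abelian variety over the number field `F`, isogenous (as a complex torus) to `∏ J_i^(e_i) × B`, the `J_i` as in `Fac`, `B` of CM type, `p` a prime number and `X ∈ H_(2b)(A, ℚ_p)` a Tate class for the decomposition groups over `p`. If (a) `X` is killed by the `su(V_p(J_i))`, or (b) `X` is a Tate class and `Big V T d p`, then `X` is a `ℚ_p`-linear combination of algebraic classes. -/
theorem result (A : CT) [FiniteDimensional ℂ A.W] (hL : IsLattice A.Lam) (F : Subfield ℂ) (hF : FiniteDimensional ℚ F) (V : AV A F)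
    (T : Iso A) (d : Fin T.k → ℕ) (hT : ∀ i, Fac (T.J i) (T.z i) (T.x i) (d i))
    (p : ℕ) [Fact p.Prime] (b : ℕ) (X : HL A p) (hX : V.IsTateP b X) (h : T.Killed X ∨ (V.IsTate b X ∧ Big V T d p)) :
    Pool.Agent.TE.AlgQ X :=
  C_FULG A hL F hF V T d hT p b X hX h

end Pool.Agent.Results.MP_3703a7_ag.TateFull
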