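import Pool.Agent.helper56.TGT.AllV

/-!
# MP_3703a7_ag: ALL `p`-adic Tate classes on products of powers of Jacobians of curves `y^(p^k) = f(x)` and tori of CM type are algebraic

`F ⊂ ℂ` is a number field and `A` an abelian variety over `F`: `A(ℂ) = W ⧸ Lam` is embedded in the projective space by theta functions `θ_1, .., θ_n` (structure `AV` in `Pool/Agent/helper56/TGA/Defs.lean`), the image is a smooth projective variety defined by equations over `F`, and the addition theorem `θ_i(z + w) θ_j(z - w) = P_ij(θ(z), θ(w))` has coefficients in `F`.
The automorphisms `σ` of `ℂ` over `F` act on the points of `A` by their action on the coordinates (`Act`), in particular on the torsion points `u / p^k`, `u ∈ Lam`, and so on `V_p(A) = ℚ_p ⊗ Lam` (`IsGal`; existence and uniqueness: hand-in TateCMGalois, (1)). `Cyc p σ c`: `c ∈ ℤ_p` is the value of the cyclotomic character at `σ`. A Tate class is an element `X` of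
`H_(2b)(A, ℚ_p) = Λ^(2b) V_p(A)` with `σ X = χ(σ)^b X` for all `σ` which fix some finite extension `E` of `F` (`IsTate`).

Let `p` be a prime number. The complex torus `A` is isogenous to `∏ J_i^(e_i) × B` (`Iso` in `Pool/Agent/helper56/TGC/DefA.lean`), `e_i > 0`, `B` any torus of CM type, and `J_i` is (up to isogeny) the new part of the Jacobian of the curve

`C_i : y^(p^(k_i)) = f_i(x) = ∏_j (x - r_ij)`, with `M_i = m_i + 1 ≥ 5` different roots `r_ij`, `p^(k_i) > 2`

(`Jac`, which contains `p^(k_i) > 2`; the new part is the part of the Jacobian on which `ζ = ζ_(p^k)` is a root of the cyclotomic polynomial `Φ_(p^k)`: the quotient by the images of the Jacobians of the curves `y^(p^j) = f_i(x)`, `j < k_i`; for `k_i = 1` it is the Jacobian). `n_i` is the dimension of the eigenspaces of `ζ` in `H_1`: `n_i + 1 = M_i`, or `n_i + 1 = M_i - 1` if `p^(k_i)` divides `M_i` (then `∞` is not a branch point, and `Jac` is used for the coordinate `1 / (x - r)` with a root `r`: `Brp`). Conditions (`Crv` in `Pool/Agent/helper56/TGT/DefV.lean`):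

* (Galois group) every even permutation of the roots of `f_i` is given by an automorphism of `ℂ` over `F` (the Galois group of `f_i` over `F` contains the alternating group); if `p = 3`: every permutation, or one of the multiplicities `⌊(n_i + 1) ν / 3^(k_i)⌋`, `3 ∤ ν`, is prime to `n_i` (this is so for some `ν` if `3` does not divide `n_i`, i.e. if `M_i` is not `1` modulo `3`); if `k_i = k_j`, `n_i = n_j`, `i ≠ j`, then every even permutation of the roots of `f_i` is given by an automorphism over `F` which fixes the roots of `f_j`;
* (endomorphisms) the endomorphisms of `A` are defined over `F` (`Dfd V V r`: the homomorphism `r` of complex tori commutes with the action of the automorphisms over `F` on the points);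
* (models) there are models `V_i` of the `J_i` over `F` such that the homomorphisms `J_i → A` are defined over `F`, and points `P_ij` of `J_i` whose differences are fixed by `ζ`, not all zero, and are permuted by the automorphisms over `F` as the roots `r_ij`; if `p` divides `M_i` and `p^(k_i)` does not, then `∑_j (P_ij - P_i0)` is not zero. For the new part of the Jacobian itself, the quotient `J(C) / π^* J(C')`, `C' : y^(p^(k-1)) = f(x)`, and `f_i ∈ F[x]`, `P_ij - P_il` is the class of the divisor `(r_ij, 0) - (r_il, 0)`.
  (This is classical, not in Lean: the existence of such points is a condition on `V_i`. With `τ = ζ^(p^(k-1))` the group `J(C)^τ / π^* J(C')` is the group of the vectors in `𝔽_p^R` of sum zero, `R` the ramification points of `C → C'`, modulo the divisor of `y`, which has the coefficients `1` at the `(r_j, 0)` and, if `p^k ∤ M`, `- M / gcd(M, p^k)` at the points at infinity.)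

## Theorem

For every `b` every Tate class `X ∈ H_(2b)(A, ℚ_p)` is a `ℚ_p`-linear combination of integral classes which are algebraic (`AlgQ`, `AlgT` in `Pool/Agent/helper46/TE/Alg.lean`: generated by the classes of holomorphic maps of compact ball quotients, of the curves in the new parts of their Jacobians and of explicit algebraic varieties in products of two or three of these, under images of products and intersections with fibres).

Nothing is assumed about the representations of the Galois group on `V_p(A)`, about its image or its Lie algebra, or on the Hodge conjecture; the theorems of Faltings and Zarhin are not used. In particular (the Jacobian of `y^(p^k) = f(x)` is isogenous to the product of the new parts for `y^(p^j) = f(x)`, `j ≤ k`): let `p` be an odd prime, `f` a polynomial of ANY degree `m ≥ 5` whose Galois group over the field `F` of definition of the endomorphisms (it contains `ζ_(p^k)`) contains `A_m` (`p = 3`: is `S_m`, or `m` is not `1` modulo `3`):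
all `p`-adic Tate classes on all powers of the Jacobian of `y^(p^k) = f(x)`, and on products of such Jacobians with independent Galois groups, are algebraic. If `f ∈ ℚ[x]` has the Galois group `S_m` or `A_m` over `ℚ`, then the Galois group over the abelian field `ℚ(ζ_(p^k))` contains `A_m`: for example `f = x^m - x - 1`. For `p = 2` the theorem is about the new parts of `y^4 = f(x)`, `y^8 = f(x)`, ...

## The proof

(0) Endomorphisms of the complex torus are endomorphisms of the abelian variety over an algebraic closure of `F` (`Z_ZHE`, theorem of Chow; `Pool/Agent/helper42/TGA/SpecZ.lean`).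

(1) The kernel of `1 - ζ` (`ModW`, `MDW`, `MXW`, `ACW`, `IRW`, `PRW` in `Pool/Agent/helper42/TGA/SpecW.lean`). Let `N_ξ` be the eigenspace of `ζ` for `ξ` in the `ℂ_p`-space of functionals on `V_p(J_i)`, `dim N_ξ = n_i`. A functional `f ∈ N_ξ` is given by its values at the `M_i` vectors `w_j = (1 - ζ) (P_j - P_0)`, which generate the lattice modulo `1 - ζ`, and modulo the maximal ideal of `ℂ_p` an automorphism `σ` permutes the differences of these values as the roots `r_j`.
So an irreducible quotient of the permutation module modulo `p` controls `N_ξ`: it is irreducible for every set of automorphisms which realises `A_M` (`APH`; if `p | M`, `p^k ∤ M` with the duality between `N_ξ` and `N_(ξ⁻¹)`, `DUV`), and it is a PRIMITIVE representation of the Galois group of `F`: if a family of independent subspaces is permuted, then there are at most `n_i < M_i` of them, the kernel of the action on the family still realises `A_M` (`ASG`: `A_M` is simple), so it is only one.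

(2) Sen theory (`SpecE.lean`, `SpecR.lean`, `SpecN.lean`, `SpecL.lean`, `SpecU.lean`, `SNU`). For every isomorphism `ι` of `ℂ` with the algebraic closure of `ℚ_p` the invariant differential forms have `p`-adic periods, and there is an operator `S` on the functionals `V_p(A) → ℂ_p` (the Sen element: the projector onto the periods) which has all Tate classes as eigenvectors and commutes with the endomorphisms.
On the eigenspace of `ζ` for `ι(τ)`, `τ = ζ_(p^k)^ν`, it is a projector whose rank is the multiplicity `⌊(n + 1) ν / p^k⌋` of `τ` on the cotangent space.

(3) The Lie algebra `Q` of the operators which have ALL Tate classes of degree `b` as eigenvectors contains the Sen elements and is stable under the Galois group of `F` (`TGT`: the full group permutes the Tate classes, because the Tate classes of all finite extensions are allowed). So its restriction to `N_ξ` is everything, in each of three cases.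
(a) `p ≠ 3`, `n ≥ 5`: the action `g` of a 3-cycle acts modulo the maximal ideal with the eigenvalues `1` (`n - 2` times), `w`, `w²` (`w³ = 1`), and `t = lim g^(p^(2j))` has order three and the same eigenvalues and normalises `Q` (`TEI`, `TST`); an irreducible Lie algebra which is normalised by such a `t` and contains a projector of a rank different from `0`, `n / 2`, `n` is everything (`PS3`, `PJ3` in `Pool/Agent/helper56/TGT/SpecP.lean`), and such a multiplicity exists (`NVV`).
(b) Some multiplicity is prime to `n` (always if `n ≤ 4` or if `p` does not divide `n`): a primitive Lie algebra which contains a projector whose rank is prime to the dimension is everything (`CPM`, `CPK` in `Pool/Agent/helper42/TGA/SpecC.lean`; elementary, without the classification of minuscule weights).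
(c) `p = 3` and the Galois group is `S_m`: the same with a transposition and a reflection (`TSW`, `PSR`, `PSJ`).

(4) Two eigenspaces can be linked (lemma of Goursat, `PLS`, `GOS`, `KGS`) only by a linear map which intertwines the actions of the Galois group and the Sen elements: then the multiplicities agree for all conjugates, so (combinatorics, `NQV`, `NUY`, `FMD`) the two eigenspaces belong to two different factors with the same `k_i`, `n_i`, and a link would give, modulo the maximal ideal, a line in a quotient of the permutation module which is stable under `A_M` (`NTW`).
So every Tate class is killed by all `su(V_p(J_i))` (`MKU`, `MKV`).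

(5) So by (2) every Tate class is a combination of rational Hodge classes killed by the real Lie algebras `su(J_i)` (`INVP`, `GUIP`, `GFI`). These are algebraic (`Pool/Agent/helper79/HEC`, `Pool/Agent/helper47/SJ`).

The proof uses other forms of the definitions (`GPow` in `Pool/Agent/helper77/TGA/SpecB.lean`, `YFac` in `Pool/Agent/helper42/TGA/FKT.lean`, `Alg`); `Pool/Agent/helper56/TGC/Br.lean`, `BrF.lean`, `Pool/Agent/helper56/TGT/BrV.lean` compare them with those of this file.
-/

set_option autoImplicit false

namespace Pool.Agent.Results.MP_3703a7_ag.TateModular

open Pool.Agent.TC Pool.Agent.TGA Pool.Agent.TGV Pool.Agent.HC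
open Pool.Agent.TGC (Iso)

/-- Let `p` be a prime number, `A` an abelian variety over the number field `F`, all endomorphisms defined over `F`, isogenous (as a complex torus) to `∏ J_i^(e_i) × B`, `B` of CM type, the `J_i` new parts of Jacobians of curves `y^(p^(k_i)) = f_i(x)` as in `Crv`: `p^(k_i) > 2`, `5 ≤ deg f_i`,
the Galois group of `f_i` over `F` contains the alternating group (if `p = 3`: it is the symmetric group or some multiplicity is prime to the dimension of the eigenspaces); independent if the exponents `k_i` and the dimensions `n_i` of the eigenspaces are the same. Then ALL Tate classes in `H_(2b)(A, ℚ_p)`, over all finite extensions of `F`, are `ℚ_p`-linear combinations of algebraic classes. -/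
theorem result (A : CT) [FiniteDimensional ℂ A.W] (hL : IsLattice A.Lam) (F : Subfield ℂ) (hF : FiniteDimensional ℚ F) (V : AV A F) (hE : ∀ r : Mor A A, Dfd V V r)
    (T : Iso A) (p : ℕ) [Fact p.Prime] (k m n : Fin T.k → ℕ) (r : ∀ i, Fin (m i + 1) → ℂ) (a : ∀ i, Fin (n i + 1) → ℂ) (V₁ : ∀ i, AV (T.J i) F) (P : ∀ i, Fin (m i + 1) → (T.J i).W)
    (hC : ∀ i, Crv F p (k i) (m i) (n i) (r i) (a i) (T.z i) (T.x i) (V₁ i) (P i)) (hD : ∀ i c, Dfd (V₁ i) V (T.p i c))
    (hS : ∀ i j, i ≠ j → k i = k j → n i = n j → ∀ π ∈ alternatingGroup (Fin (m i + 1)), ∃ σ : Aut ℂ, Pm F (r i) σ π ∧ Pm F (r j) σ 1)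
    (b : ℕ) (X : HL A p) (hX : V.IsTate b X) : Pool.Agent.TE.AlgQ X :=
  C_MODV A hL F hF V hE T p k m n r a V₁ P hC hD hS b X hX

end Pool.Agent.Results.MP_3703a7_ag.TateModular
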